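import Mathlib

namespace Pool.Agent.MP_adfebc_an

/-- The optimal Lipschitz constant of `f : ℝⁿ → ℝᵐ` (Euclidean norms). -/
noncomputable def lipConst {n m : ℕ}
    (f : EuclideanSpace ℝ (Fin n) → EuclideanSpace ℝ (Fin m)) : ℝ :=
  sInf {L : ℝ | 0 ≤ L ∧ ∀ x y, ‖f x - f y‖ ≤ L * ‖x - y‖}

/-- The stretch set of `f`, inside `ℝⁿ × ℝⁿ` with the Euclidean norm. -/
def stretchSet {n m : ℕ}
    (f : EuclideanSpace ℝ (Fin n) → EuclideanSpace ℝ (Fin m)) :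
    Set (WithLp 2 (EuclideanSpace ℝ (Fin n) × EuclideanSpace ℝ (Fin n))) :=
  {p | ‖f p.fst - f p.snd‖ = lipConst f * ‖p.fst - p.snd‖}

end Pool.Agent.MP_adfebc_an
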