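import Mathlib
import Pool.Agent.MP_adfebc_an.Defs

namespace Pool.Agent.MP_adfebc_an

open scoped NNReal

theorem quad_id {E : Type*} [NormedAddCommGroup E] [InnerProductSpace ℝ E] (x y x' y' : E) :
    2 * (‖y - x'‖ ^ 2 + ‖x - y'‖ ^ 2) + ‖(y - x) - (y' - x')‖ ^ 2 =
      ‖(x + y) - (x' + y')‖ ^ 2 + 2 * (‖x - y‖ ^ 2 + ‖x' - y'‖ ^ 2) := by
  have h1 := parallelogram_law_with_norm ℝ (y - x') (x - y')
  have h2 := parallelogram_law_with_norm ℝ (y - x) (y' - x')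
  have e1 : y - x' + (x - y') = (x + y) - (x' + y') := by abel
  have e2 : y - x' - (x - y') = y - x + (y' - x') := by abel
  rw [e1, e2] at h1
  rw [norm_sub_rev y x, norm_sub_rev y' x'] at h2
  nlinarith [h1, h2]

theorem key_ineq {E F : Type*} [NormedAddCommGroup E] [InnerProductSpace ℝ E]
    [NormedAddCommGroup F] [InnerProductSpace ℝ F] (g : E → F)
    (hg : ∀ x y, ‖g x - g y‖ ≤ ‖x - y‖) (x y x' y' : E)
    (h : ‖g x - g y‖ = ‖x - y‖) (h' : ‖g x' - g y'‖ = ‖x' - y'‖) :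
    ‖(y - x) - (y' - x')‖ ≤ ‖(x + y) - (x' + y')‖ + ‖(g y - g x) - (g y' - g x')‖ := by
  have q1 := quad_id x y x' y'
  have q2 := quad_id (g x) (g y) (g x') (g y')
  have a1 : ‖g y - g x'‖ ^ 2 ≤ ‖y - x'‖ ^ 2 := by
    have := hg y x'
    gcongr
  have a2 : ‖g x - g y'‖ ^ 2 ≤ ‖x - y'‖ ^ 2 := by
    have := hg x y'
    gcongr
  rw [h, h'] at q2
  have a3 : 0 ≤ ‖(g x + g y) - (g x' + g y')‖ ^ 2 := by positivity
  have a4 : ‖(y - x) - (y' - x')‖ ^ 2 ≤
      ‖(x + y) - (x' + y')‖ ^ 2 + ‖(g y - g x) - (g y' - g x')‖ ^ 2 := by nlinarith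
  have b1 := norm_nonneg ((x + y) - (x' + y'))
  have b2 := norm_nonneg ((g y - g x) - (g y' - g x'))
  have b3 := norm_nonneg ((y - x) - (y' - x'))
  apply (pow_le_pow_iff_left₀ b3 (by positivity) two_ne_zero).mp
  nlinarith [mul_nonneg b1 b2]

theorem lipConst_spec {n m : ℕ} (f : EuclideanSpace ℝ (Fin n) → EuclideanSpace ℝ (Fin m))
    (hf : ∃ K, LipschitzWith K f) (x y : EuclideanSpace ℝ (Fin n)) :
    ‖f x - f y‖ ≤ lipConst f * ‖x - y‖ := by
  obtain ⟨K, hK⟩ := hf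
  have hne : ({L : ℝ | 0 ≤ L ∧ ∀ x y, ‖f x - f y‖ ≤ L * ‖x - y‖}).Nonempty := by
    refine ⟨K, K.2, fun x y => ?_⟩
    have := hK.dist_le_mul x y
    simpa [dist_eq_norm] using this
  by_cases hxy : x = y
  · simp [hxy]
  have hpos : 0 < ‖x - y‖ := norm_pos_iff.mpr (sub_ne_zero.mpr hxy)
  rw [← div_le_iff₀ hpos]
  apply le_csInf hne
  intro L hL
  rw [div_le_iff₀ hpos]
  exact hL.2 x y

theorem main {n m : ℕ} (f : EuclideanSpace ℝ (Fin n) → EuclideanSpace ℝ (Fin m))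
    (hf : ∃ K, LipschitzWith K f) (hnc : ¬ ∃ c, ∀ x, f x = c) :
    ∃ (K : ℝ≥0) (ψ : EuclideanSpace ℝ (Fin (n + m)) →
        WithLp 2 (EuclideanSpace ℝ (Fin n) × EuclideanSpace ℝ (Fin n))),
      LipschitzWith K ψ ∧ stretchSet f ⊆ Set.range ψ := by
  classical
  have hL := lipConst_spec f hf
  set L := lipConst f with hLdef
  have hLpos : 0 < L := by
    by_contra hneg
    apply hnc
    refine ⟨f 0, fun x => ?_⟩
    have h1 := hL x 0
    have h2 : L * ‖x - 0‖ ≤ 0 := mul_nonpos_of_nonpos_of_nonneg (not_lt.mp hneg) (norm_nonneg _)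
    exact sub_eq_zero.mp (norm_le_zero_iff.mp (h1.trans h2))
  set g : EuclideanSpace ℝ (Fin n) → EuclideanSpace ℝ (Fin m) := fun x => L⁻¹ • f x with hgdef
  have hgn : ∀ x y, ‖g x - g y‖ = L⁻¹ * ‖f x - f y‖ := by
    intro x y
    simp only [hgdef]
    rw [← smul_sub, norm_smul, Real.norm_eq_abs, abs_of_pos (inv_pos.mpr hLpos)]
  have hg : ∀ x y, ‖g x - g y‖ ≤ ‖x - y‖ := by
    intro x y
    rw [hgn, inv_mul_le_iff₀ hLpos]
    exact hL x y
  have hΓ : ∀ p ∈ stretchSet f, ‖g p.fst - g p.snd‖ = ‖p.fst - p.snd‖ := by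
    intro p hp
    have : ‖f p.fst - f p.snd‖ = L * ‖p.fst - p.snd‖ := hp
    rw [hgn, this]
    field_simp
  let P : WithLp 2 (EuclideanSpace ℝ (Fin n) × EuclideanSpace ℝ (Fin n)) →
      EuclideanSpace ℝ (Fin n) × EuclideanSpace ℝ (Fin m) :=
    fun p => (p.fst + p.snd, g p.snd - g p.fst)
  have hP : ∀ p ∈ stretchSet f, ∀ q ∈ stretchSet f, dist p q ≤ 3 * dist (P p) (P q) := by
    intro p hp q hq
    have k := key_ineq g hg p.fst p.snd q.fst q.snd (hΓ p hp) (hΓ q hq)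
    have d1 : ‖(p.fst + p.snd) - (q.fst + q.snd)‖ ≤ dist (P p) (P q) := by
      rw [← dist_eq_norm, Prod.dist_eq]
      exact le_max_left _ _
    have d2 : ‖(g p.snd - g p.fst) - (g q.snd - g q.fst)‖ ≤ dist (P p) (P q) := by
      rw [← dist_eq_norm, Prod.dist_eq]
      exact le_max_right _ _
    have e1 : (2 : ℝ) • (p.fst - q.fst) =
        ((p.fst + p.snd) - (q.fst + q.snd)) - ((p.snd - p.fst) - (q.snd - q.fst)) := by
      rw [two_smul]; abel
    have e2 : (2 : ℝ) • (p.snd - q.snd) =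
        ((p.fst + p.snd) - (q.fst + q.snd)) + ((p.snd - p.fst) - (q.snd - q.fst)) := by
      rw [two_smul]; abel
    have n1 : 2 * ‖p.fst - q.fst‖ ≤ 3 * dist (P p) (P q) := by
      have := norm_sub_le ((p.fst + p.snd) - (q.fst + q.snd)) ((p.snd - p.fst) - (q.snd - q.fst))
      rw [← e1, norm_smul] at this
      simp only [Real.norm_ofNat] at this
      linarith
    have n2 : 2 * ‖p.snd - q.snd‖ ≤ 3 * dist (P p) (P q) := by
      have := norm_add_le ((p.fst + p.snd) - (q.fst + q.snd)) ((p.snd - p.fst) - (q.snd - q.fst))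
      rw [← e2, norm_smul] at this
      simp only [Real.norm_ofNat] at this
      linarith
    have hd : dist p q ≤ ‖p.fst - q.fst‖ + ‖p.snd - q.snd‖ := by
      rw [WithLp.prod_dist_eq_of_L2, dist_eq_norm, dist_eq_norm]
      apply Real.sqrt_le_iff.mpr
      have b1 := norm_nonneg (p.fst - q.fst)
      have b2 := norm_nonneg (p.snd - q.snd)
      constructor
      · positivity
      · nlinarith [mul_nonneg b1 b2]
    linarith
  let G : EuclideanSpace ℝ (Fin n) × EuclideanSpace ℝ (Fin m) →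
      WithLp 2 (EuclideanSpace ℝ (Fin n) × EuclideanSpace ℝ (Fin n)) :=
    Function.invFunOn P (stretchSet f)
  have hG : ∀ p ∈ stretchSet f, G (P p) = p := by
    intro p hp
    have h1 : G (P p) ∈ stretchSet f := Function.invFunOn_mem ⟨p, hp, rfl⟩
    have h2 : P (G (P p)) = P p := Function.invFunOn_eq ⟨p, hp, rfl⟩
    have := hP _ h1 _ hp
    rw [h2, dist_self, mul_zero] at this
    exact dist_le_zero.mp this
  have hGl : LipschitzOnWith 3 G (P '' stretchSet f) := by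
    apply LipschitzOnWith.of_dist_le_mul
    rintro _ ⟨p, hp, rfl⟩ _ ⟨q, hq, rfl⟩
    rw [hG p hp, hG q hq]
    exact_mod_cast hP p hp q hq
  obtain ⟨G', hG'l, hG'e⟩ := hGl.extend_finite_dimension
  let e : EuclideanSpace ℝ (Fin (n + m)) ≃L[ℝ]
      EuclideanSpace ℝ (Fin n) × EuclideanSpace ℝ (Fin m) := EuclideanSpace.finAddEquivProd
  refine ⟨_, G' ∘ e, hG'l.comp e.lipschitz, fun p hp => ⟨e.symm (P p), ?_⟩⟩
  simp only [Function.comp, ContinuousLinearEquiv.apply_symm_apply]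
  rw [← hG'e ⟨p, hp, rfl⟩, hG p hp]

end Pool.Agent.MP_adfebc_an
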